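import Pool.Agent.Lib.MP_fce888_co.C45.Ifc
import Pool.Agent.Lib.MP_fce888_co.C48.P_ext

set_option autoImplicit false

/-!
# MP_fce888_co, 4.5: `GeoStatement`, a chain of points passes near every vertex of the geodesic
-/

namespace Pool.Agent.Lib.MP_fce888_co.C45

open Finset Pool.Agent.Lib.MP_fce888_co
open scoped Classical

/-- vertices of a shortest walk -/
theorem geo_mem {V : Type} {G : SimpleGraph V} {u v x : V} (p : G.Walk u v)
    (hp : p.length = G.dist u v) (hx : x ∈ p.support) :
    G.dist u x + G.dist x v ≤ G.dist u v := by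
  have h := p.take_spec hx
  have h1 : (p.takeUntil x hx).length + (p.dropUntil x hx).length = p.length := by
    rw [← SimpleGraph.Walk.length_append, h]
  have h2 := SimpleGraph.dist_le (p.takeUntil x hx)
  have h3 := SimpleGraph.dist_le (p.dropUntil x hx)
  omega

/-- the walk through the points of a chain -/
theorem geo_walk {V : Type} {G : SimpleGraph V} (hG : G.Connected) (tc : ℕ) (p : ℕ → V) (k : ℕ)
    (h : ∀ j < k, G.dist (p j) (p (j + 1)) ≤ tc) :
    ∃ W : G.Walk (p 0) (p k), ∀ x ∈ W.support, ∃ j ≤ k, 2 * G.dist (p j) x ≤ tc := by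
  induction k with
  | zero =>
    refine ⟨SimpleGraph.Walk.nil, fun x hx => ⟨0, le_rfl, ?_⟩⟩
    rw [SimpleGraph.Walk.support_nil, List.mem_singleton] at hx
    rw [hx, SimpleGraph.dist_self]
    omega
  | succ k ih =>
    obtain ⟨W, hW⟩ := ih (fun j hj => h j (by omega))
    obtain ⟨q, hq⟩ := hG.exists_walk_length_eq_dist (p k) (p (k + 1))
    refine ⟨W.append q, fun x hx => ?_⟩
    rw [SimpleGraph.Walk.mem_support_append_iff] at hx
    rcases hx with hx | hx
    · obtain ⟨j, hj, hj2⟩ := hW x hx
      exact ⟨j, by omega, hj2⟩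
    · have h1 := geo_mem q hq hx
      have h2 := h k (by omega)
      rcases le_total (G.dist (p k) x) (G.dist x (p (k + 1))) with h3 | h3
      · exact ⟨k, by omega, by omega⟩
      · refine ⟨k + 1, le_rfl, ?_⟩
        rw [G.dist_comm]
        omega

/-- the subgraph of the edges inside a ball -/
def ballG {V : Type} (G : SimpleGraph V) (z : V) (r : ℕ) : SimpleGraph V where
  Adj x y := G.Adj x y ∧ G.dist z x ≤ r ∧ G.dist z y ≤ r
  symm := ⟨fun _ _ h => ⟨h.1.symm, h.2.2, h.2.1⟩⟩
  loopless := ⟨fun _ h => h.1.ne rfl⟩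

theorem ballG_acyclic {V : Type} [Fintype V] (G : SimpleGraph V) (z : V) (r : ℕ)
    (h : ∀ Y, IsCirc G Y → ¬ ∀ u ∈ vs Y, G.dist z u ≤ r) : (ballG G z r).IsAcyclic := by
  refine C48.ext_acyclic G (ballG G z r) (univ.filter fun e => e ∈ (ballG G z r).edgeSet)
    (fun x y hxy => hxy.1) (fun e he => by simpa using he) ?_
  intro D hD hc
  refine h D hc fun u hu => ?_
  obtain ⟨e, he, hue⟩ := (Finset.mem_filter.1 hu).2
  have h1 := (Finset.mem_filter.1 (hD he)).2
  revert h1 hue
  refine Sym2.ind (fun x y => ?_) e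
  intro hue h1
  rw [SimpleGraph.mem_edgeSet] at h1
  rcases Sym2.mem_iff.1 hue with rfl | rfl
  · exact h1.2.1
  · exact h1.2.2

/-- a path in a ball without circuits is unique -/
theorem path_ball {V : Type} [Fintype V] (G : SimpleGraph V) (z : V) (r : ℕ)
    (h : ∀ Y, IsCirc G Y → ¬ ∀ u ∈ vs Y, G.dist z u ≤ r) {u v : V} (p q : G.Walk u v)
    (hp : p.IsPath) (hq : q.IsPath) (hpr : ∀ x ∈ p.support, G.dist z x ≤ r)
    (hqr : ∀ x ∈ q.support, G.dist z x ≤ r) : p.support = q.support := by
  have key : ∀ w : G.Walk u v, (∀ x ∈ w.support, G.dist z x ≤ r) →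
      ∀ e ∈ w.edges, e ∈ (ballG G z r).edgeSet := by
    intro w hw e
    refine Sym2.ind (fun x y => ?_) e
    intro he
    rw [SimpleGraph.mem_edgeSet]
    exact ⟨w.adj_of_mem_edges he, hw x (w.fst_mem_support_of_mem_edges he),
      hw y (w.snd_mem_support_of_mem_edges he)⟩
  have hac := ballG_acyclic G z r h
  have h1 := (hac.subsingleton_path u v).elim ⟨p.transfer _ (key p hpr), hp.transfer _⟩
    ⟨q.transfer _ (key q hqr), hq.transfer _⟩
  have h2 := congrArg (fun w => w.1.support) h1
  simpa using h2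

theorem geo : GeoStatement := by
  intro V _ G hG r tc ρ z z' hr hY hz1 hz2
  obtain ⟨g, hg⟩ := hG.exists_walk_length_eq_dist z z'
  have hgp : g.IsPath := g.isPath_of_length_eq_dist hg
  refine ⟨fun a => g.getVert (a * (tc + 1)), ?_, ?_⟩
  · have key : ∀ a b : ℕ, a < b → b < ρ / (tc + 1) →
        tc < G.dist (g.getVert (a * (tc + 1))) (g.getVert (b * (tc + 1))) := by
      intro a b hab hb
      have hbρ : b * (tc + 1) ≤ ρ := by
        have h1 := Nat.div_mul_le_self ρ (tc + 1)
        have h2 : b * (tc + 1) ≤ ρ / (tc + 1) * (tc + 1) := Nat.mul_le_mul_right _ hb.le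
        omega
      have hab2 : a * (tc + 1) + (tc + 1) ≤ b * (tc + 1) := by
        have : (a + 1) * (tc + 1) ≤ b * (tc + 1) := Nat.mul_le_mul_right _ hab
        linarith
      have h1 : G.dist z (g.getVert (a * (tc + 1))) ≤ a * (tc + 1) := by
        refine (SimpleGraph.dist_le (g.take (a * (tc + 1)))).trans ?_
        rw [SimpleGraph.Walk.take_length]
        exact min_le_left _ _
      have h2 : G.dist (g.getVert (b * (tc + 1))) z' ≤ g.length - b * (tc + 1) := by
        refine (SimpleGraph.dist_le (g.drop (b * (tc + 1)))).trans ?_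
        rw [SimpleGraph.Walk.drop_length]
      have h3 := hG.dist_triangle (u := z) (v := g.getVert (a * (tc + 1))) (w := z')
      have h4 := hG.dist_triangle (u := g.getVert (a * (tc + 1)))
        (v := g.getVert (b * (tc + 1))) (w := z')
      omega
    intro a ha b hb hab
    rcases lt_or_gt_of_ne hab with h | h
    · exact key a b h hb
    · rw [G.dist_comm]
      exact key b a h ha
  · intro k p hp0 hpk hpr hpt a ha
    obtain ⟨W, hW⟩ := geo_walk hG tc p k hpt
    have hWr : ∀ x ∈ W.support, G.dist z x ≤ r := by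
      intro x hx
      obtain ⟨j, hj, hj2⟩ := hW x hx
      have h1 := hpr j hj
      have h2 := hG.dist_triangle (u := z) (v := p j) (w := x)
      omega
    subst hp0 hpk
    have h5 := path_ball G (p 0) r hY g W.bypass hgp W.bypass_isPath
      (fun x hx => by
        have h1 := geo_mem g hg hx
        omega)
      (fun x hx => hWr x (W.support_bypass_subset_support hx))
    have h6 : g.getVert (a * (tc + 1)) ∈ g.support := g.getVert_mem_support _
    rw [h5] at h6
    exact hW _ (W.support_bypass_subset_support h6)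

end Pool.Agent.Lib.MP_fce888_co.C45
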