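import Pool.Agent.Lib.MP_fce888_co.C45.Ifc

set_option autoImplicit false

/-!
# MP_fce888_co, 4.5: union bound and clusters (helper36)
-/

namespace Pool.Agent.Lib.MP_fce888_co

open Finset
open scoped Classical

/-- from the reflexive transitive closure to sequences -/
private lemma seq_of_rtg {X : Type} {R : X → X → Prop} {x y : X}
    (h : Relation.ReflTransGen R x y) :
    ∃ (k : ℕ) (p : ℕ → X), p 0 = x ∧ p k = y ∧ ∀ j < k, R (p j) (p (j + 1)) := by
  induction h with
  | refl => exact ⟨0, fun _ => x, rfl, rfl, fun j hj => absurd hj (Nat.not_lt_zero j)⟩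
  | @tail b c _ hbc ih =>
    obtain ⟨k, p, h0, hk, hp⟩ := ih
    refine ⟨k + 1, fun j => if j ≤ k then p j else c, ?_, ?_, ?_⟩
    · simp [h0]
    · simp
    · intro j hj
      rcases Nat.lt_succ_iff_lt_or_eq.mp hj with h | h
      · have h1 : j ≤ k := h.le
        have h2 : j + 1 ≤ k := h
        simp only [h1, h2, if_true]
        exact hp j h
      · subst h
        simp only [le_refl, if_true, Nat.not_succ_le_self, if_false]
        rw [hk]
        exact hbc

private lemma clusters {V : Type} [Fintype V] (G : SimpleGraph V) (hG : G.Connected)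
    (r2 tc ρ : ℕ) (Th : Finset (Sym2 V)) {X : Type} (A A3 : Finset X) (z : X → V)
    (hnear : ∀ x ∈ A, x ∉ A3 → ∃ w ∈ vs Th, G.dist (z x) w ≤ r2)
    (hch : ∀ x y, x ∈ A3 → Relation.ReflTransGen
      (fun a b => a ∈ A3 ∧ b ∈ A3 ∧ G.dist (z a) (z b) ≤ tc) x y → G.dist (z x) (z y) ≤ ρ) :
    ∃ cl : X → Option X, Clust G tc (r2 + tc) ρ Th A z cl := by
  set R : X → X → Prop := fun a b => a ∈ A ∧ b ∈ A ∧ G.dist (z a) (z b) ≤ tc with hR
  set R3 : X → X → Prop := fun a b => a ∈ A3 ∧ b ∈ A3 ∧ G.dist (z a) (z b) ≤ tc with hR3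
  set N : X → Prop := fun x => ∃ w ∈ vs Th, G.dist (z x) w ≤ r2 + tc with hN
  have hsymm : ∀ {a b : X}, R a b → R b a := by
    intro a b hab
    exact ⟨hab.2.1, hab.1, by rw [SimpleGraph.dist_comm]; exact hab.2.2⟩
  have hs : ∀ {a b : X}, Relation.ReflTransGen R a b → Relation.ReflTransGen R b a := by
    intro a b hab
    induction hab with
    | refl => exact Relation.ReflTransGen.refl
    | tail _ hbc ih => exact Relation.ReflTransGen.head (hsymm hbc) ih
  let S : Setoid X := ⟨Relation.ReflTransGen R,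
    ⟨fun x => Relation.ReflTransGen.refl, fun {x y} h => hs h, fun {x y w} h h' => h.trans h'⟩⟩
  have hnotN : ∀ x ∈ A, ¬ N x → x ∈ A3 := by
    intro x hx hNx
    by_contra h
    obtain ⟨w, hw, hd⟩ := hnear x hx h
    exact hNx ⟨w, hw, by omega⟩
  let cl : X → Option X := fun x =>
    if ∃ y, Relation.ReflTransGen R x y ∧ N y then none else some (Quotient.mk S x).out
  have hcl : ∀ x y, Relation.ReflTransGen R x y → cl x = cl y := by
    intro x y hxy
    have e1 : (∃ y', Relation.ReflTransGen R x y' ∧ N y') ↔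
        (∃ y', Relation.ReflTransGen R y y' ∧ N y') := by
      constructor
      · rintro ⟨y', h, h'⟩; exact ⟨y', (hs hxy).trans h, h'⟩
      · rintro ⟨y', h, h'⟩; exact ⟨y', hxy.trans h, h'⟩
    have e2 : Quotient.mk S x = Quotient.mk S y := Quotient.sound hxy
    show (if _ then _ else _) = (if _ then _ else _)
    by_cases h : ∃ y', Relation.ReflTransGen R x y' ∧ N y'
    · rw [if_pos h, if_pos (e1.1 h)]
    · rw [if_neg h, if_neg (fun h' => h (e1.2 h')), e2]
  refine ⟨cl, ⟨?_, ?_, ?_, ?_⟩⟩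
  · -- c1
    intro x hx hnone
    have hex : ∃ y, Relation.ReflTransGen R x y ∧ N y := by
      by_contra h
      have : cl x = some (Quotient.mk S x).out := if_neg h
      rw [this] at hnone
      exact Option.some_ne_none _ hnone
    obtain ⟨y, hxy, hNy⟩ := hex
    have key : N x ∨ (x ∈ A3 ∧ ∃ x', Relation.ReflTransGen R3 x x' ∧ N x') := by
      induction hxy using Relation.ReflTransGen.head_induction_on with
      | refl => exact Or.inl hNy
      | @head a c hac _ ih =>
        by_cases ha : a ∈ A3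
        · rcases ih hac.2.1 (by
            have := hcl a c (Relation.ReflTransGen.single hac)
            rw [← this]; exact hnone) with hNc | ⟨hc3, x', hx', hNx'⟩
          · by_cases hc : c ∈ A3
            · exact Or.inr ⟨ha, c, Relation.ReflTransGen.single ⟨ha, hc, hac.2.2⟩, hNc⟩
            · obtain ⟨w, hw, hd⟩ := hnear c hac.2.1 hc
              refine Or.inl ⟨w, hw, ?_⟩
              have h1 : G.dist (z a) w ≤ G.dist (z a) (z c) + G.dist (z c) w :=
                hG.dist_triangle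
              have h2 := hac.2.2
              omega
          · exact Or.inr ⟨ha, x', Relation.ReflTransGen.head ⟨ha, hc3, hac.2.2⟩ hx', hNx'⟩
        · obtain ⟨w, hw, hd⟩ := hnear a hac.1 ha
          exact Or.inl ⟨w, hw, by omega⟩
    rcases key with ⟨w, hw, hd⟩ | ⟨hx3, x', hx', w, hw, hd⟩
    · exact ⟨w, hw, by omega⟩
    · have h1 : G.dist (z x) w ≤ G.dist (z x) (z x') + G.dist (z x') w := hG.dist_triangle
      have h2 := hch x x' hx3 hx'
      exact ⟨w, hw, by omega⟩
  · -- c2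
    intro x hx y hy hxy hne
    have hnx : ¬ ∃ y', Relation.ReflTransGen R x y' ∧ N y' := by
      intro h
      exact hne (if_pos h)
    have hny : ¬ ∃ y', Relation.ReflTransGen R y y' ∧ N y' := by
      intro h
      have : cl y = none := if_pos h
      rw [hxy] at hne
      exact hne this
    have e1 : cl x = some (Quotient.mk S x).out := if_neg hnx
    have e2 : cl y = some (Quotient.mk S y).out := if_neg hny
    have e3 : (Quotient.mk S x).out = (Quotient.mk S y).out := by
      rw [e1, e2] at hxy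
      exact Option.some_injective _ hxy
    have e4 : Quotient.mk S x = Quotient.mk S y := by
      rw [← Quotient.out_eq (Quotient.mk S x), ← Quotient.out_eq (Quotient.mk S y), e3]
    have hrel : Relation.ReflTransGen R x y := Quotient.exact e4
    have hx3 : x ∈ A3 := hnotN x hx (fun h => hnx ⟨x, Relation.ReflTransGen.refl, h⟩)
    have hch3 : Relation.ReflTransGen R3 x y := by
      clear e1 e2 e3 e4 hxy hny hy
      induction hrel with
      | refl => exact Relation.ReflTransGen.refl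
      | @tail b c hb hbc ih =>
        have hb3 : b ∈ A3 := hnotN b hbc.1 (fun h => hnx ⟨b, hb, h⟩)
        have hc3 : c ∈ A3 := hnotN c hbc.2.1 (fun h => hnx ⟨c, hb.tail hbc, h⟩)
        exact ih.tail ⟨hb3, hc3, hbc.2.2⟩
    exact hch x y hx3 hch3
  · -- c3
    intro x hx y hy hd
    exact hcl x y (Relation.ReflTransGen.single ⟨hx, hy, hd⟩)
  · -- c4
    intro x hx w hw hd
    exact if_pos ⟨x, Relation.ReflTransGen.refl, w, hw, hd⟩

private noncomputable def omg {ι V : Type} [Fintype ι] (Z : ι → Finset V) : Finset (ι → V) :=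
  Fintype.piFinset Z

private noncomputable def hit {ι V : Type} [Fintype ι] (Z : ι → Finset V) (m : ℕ)
    (Nr : ℕ → V → Prop) : Finset (ι → V) :=
  (Fintype.piFinset Z).filter fun f => ∀ a < m, ∃ i, Nr a (f i)

private lemma mem_omg {ι V : Type} [Fintype ι] (Z : ι → Finset V) (f : ι → V) :
    f ∈ omg Z ↔ ∀ i, f i ∈ Z i := Fintype.mem_piFinset

private lemma mem_hit {ι V : Type} [Fintype ι] (Z : ι → Finset V) (m : ℕ) (Nr : ℕ → V → Prop)
    (f : ι → V) : f ∈ hit Z m Nr ↔ f ∈ omg Z ∧ ∀ a < m, ∃ i, Nr a (f i) := mem_filter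

/-- 4.5 from the occupancy lemma and the geometry of chains -/
theorem sel_of (hocc : OccStatement) (hgeo : GeoStatement) : SelStatement := by
  intro V _ G hG hcub r r2 tc κ ρ Th X A A3 Z hc htc hr hnum
  set m : ℕ := ρ / (tc + 1) with hm
  set W : Finset V := A3.biUnion Z with hW
  have hWtb : ∀ u ∈ W, ∀ Y, IsCirc G Y → ¬ ∀ v ∈ vs Y, G.dist u v ≤ r := by
    intro u hu
    obtain ⟨x, hx, hux⟩ := mem_biUnion.1 hu
    exact hc.tb x (hc.sub hx) u hux
  have hw : ∀ u v : V, ∃ w : ℕ → V, (u ∈ W ∧ ρ < G.dist u v ∧ G.dist u v ≤ ρ + tc) →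
      (∀ a < m, ∀ b < m, a ≠ b → tc < G.dist (w a) (w b)) ∧
        ∀ (k : ℕ) (p : ℕ → V), p 0 = u → p k = v →
          (∀ j ≤ k, G.dist u (p j) ≤ ρ + tc) →
          (∀ j < k, G.dist (p j) (p (j + 1)) ≤ tc) →
          ∀ a < m, ∃ j ≤ k, 2 * G.dist (p j) (w a) ≤ tc := by
    intro u v
    by_cases h : u ∈ W ∧ ρ < G.dist u v ∧ G.dist u v ≤ ρ + tc
    · obtain ⟨w, h1, h2⟩ := hgeo V G hG r tc ρ u v hr (hWtb u h.1) h.2.1 h.2.2
      exact ⟨w, fun _ => ⟨h1, h2⟩⟩
    · exact ⟨fun _ => u, fun h' => absurd h' h⟩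
  choose w hw using hw
  -- the index type
  let Z' : {x // x ∈ A3} → Finset V := fun x => Z x.1
  set Om : Finset ({x // x ∈ A3} → V) := omg Z' with hOm
  set q : ℝ := (1 - (1 / 4 : ℝ) ^ κ) ^ m with hq
  have hq0 : 0 ≤ q := by
    apply pow_nonneg
    have : (1 / 4 : ℝ) ^ κ ≤ 1 := pow_le_one₀ (by norm_num) (by norm_num)
    linarith
  set PPs : Finset (V × V) := (W ×ˢ W).filter fun P => ρ < G.dist P.1 P.2 ∧ G.dist P.1 P.2 ≤ ρ + tc
    with hPPs
  set Bd : V × V → Finset ({x // x ∈ A3} → V) := fun P =>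
    hit Z' m (fun a y => 2 * G.dist y (w P.1 P.2 a) ≤ tc) with hBd
  have hsumZ : (∑ i : {x // x ∈ A3}, (1 : ℝ) / ((Z' i).card : ℝ)) ≤ κ := by
    have h1 : (∑ i : {x // x ∈ A3}, (1 : ℝ) / ((Z' i).card : ℝ)) =
        ∑ x ∈ A3, (1 : ℝ) / ((Z x).card : ℝ) := by
      rw [← Finset.sum_coe_sort A3 (fun x => (1 : ℝ) / ((Z x).card : ℝ))]
    rw [h1]
    exact hc.sum
  have hBcard : ∀ P ∈ PPs, ((Bd P).card : ℝ) ≤ q * (Om.card : ℝ) := by
    rintro ⟨u, v⟩ hP
    obtain ⟨hP1, hP2, hP3⟩ := mem_filter.1 hP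
    have hu := (mem_product.1 hP1).1
    obtain ⟨h1, -⟩ := hw u v ⟨hu, hP2, hP3⟩
    have h2 := hocc {x // x ∈ A3} V Z' κ m (fun a y => 2 * G.dist y (w u v a) ≤ tc)
      (fun i => hc.two i.1 i.2) hsumZ
      (by
        intro i a ha y hy y' hy' hn hn'
        by_contra hne
        have h3 := hc.far i.1 i.2 y hy y' hy' hne
        have h4 : G.dist y y' ≤ G.dist y (w u v a) + G.dist (w u v a) y' := hG.dist_triangle
        rw [SimpleGraph.dist_comm (u := w u v a)] at h4
        omega)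
      (by
        intro a ha b hb y hn hn'
        by_contra hne
        have h3 := h1 a ha b hb hne
        have h4 : G.dist (w u v a) (w u v b) ≤ G.dist (w u v a) y + G.dist y (w u v b) :=
          hG.dist_triangle
        rw [SimpleGraph.dist_comm (v := y)] at h4
        omega)
    exact h2
  have hOmpos : 0 < Om.card := by
    rw [Finset.card_pos]
    refine ⟨fun i => (hc.ne i.1 (hc.sub i.2)).choose, ?_⟩
    rw [hOm, mem_omg]
    intro i
    exact (hc.ne i.1 (hc.sub i.2)).choose_spec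
  have hWcard : (W.card : ℝ) ≤ ∑ x ∈ A3, ((Z x).card : ℝ) := by
    have : W.card ≤ ∑ x ∈ A3, (Z x).card := card_biUnion_le
    exact_mod_cast this
  have hPcard : (PPs.card : ℝ) ≤ (∑ x ∈ A3, ((Z x).card : ℝ)) ^ 2 := by
    have h1 : PPs.card ≤ W.card * W.card := by
      refine (card_filter_le _ _).trans ?_
      rw [card_product]
    have h2 : (PPs.card : ℝ) ≤ (W.card : ℝ) * (W.card : ℝ) := by exact_mod_cast h1
    have h3 : (0 : ℝ) ≤ (W.card : ℝ) := Nat.cast_nonneg _
    nlinarith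
  have hex : ∃ f ∈ Om, ∀ P ∈ PPs, f ∉ Bd P := by
    by_contra hcon
    push Not at hcon
    have h1 : Om ⊆ PPs.biUnion Bd := by
      intro f hf
      obtain ⟨P, hP, hfP⟩ := hcon f hf
      exact mem_biUnion.2 ⟨P, hP, hfP⟩
    have h2 : (Om.card : ℝ) ≤ ∑ P ∈ PPs, ((Bd P).card : ℝ) := by
      have := (card_le_card h1).trans card_biUnion_le
      exact_mod_cast this
    have h3 : ∑ P ∈ PPs, ((Bd P).card : ℝ) ≤ (PPs.card : ℝ) * (q * (Om.card : ℝ)) := by
      have := Finset.sum_le_card_nsmul PPs (fun P => ((Bd P).card : ℝ)) (q * (Om.card : ℝ)) hBcard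
      rwa [nsmul_eq_mul] at this
    have h4 : (0 : ℝ) < (Om.card : ℝ) := by exact_mod_cast hOmpos
    have h5 : (PPs.card : ℝ) * q < 1 :=
      lt_of_le_of_lt (mul_le_mul_of_nonneg_right hPcard hq0) hnum
    have h6 : (PPs.card : ℝ) * (q * (Om.card : ℝ)) = (PPs.card : ℝ) * q * (Om.card : ℝ) := by ring
    nlinarith
  obtain ⟨f, hf, hfB⟩ := hex
  have hfZ : ∀ i, f i ∈ Z' i := (mem_omg Z' f).1 hf
  have : Nonempty V := hG.nonempty
  let z : X → V := fun x => if h : x ∈ A3 then f ⟨x, h⟩ else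
    if h' : (Z x).Nonempty then h'.choose else Classical.arbitrary V
  have hz3 : ∀ x (h : x ∈ A3), z x = f ⟨x, h⟩ := by
    intro x h
    show (if h : x ∈ A3 then f ⟨x, h⟩ else _) = _
    rw [dif_pos h]
  have hzZ : ∀ x ∈ A, z x ∈ Z x := by
    intro x hx
    by_cases h : x ∈ A3
    · rw [hz3 x h]
      exact hfZ ⟨x, h⟩
    · show (if h : x ∈ A3 then f ⟨x, h⟩ else
        if h' : (Z x).Nonempty then h'.choose else Classical.arbitrary V) ∈ Z x
      rw [dif_neg h, dif_pos (hc.ne x hx)]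
      exact (hc.ne x hx).choose_spec
  have hch : ∀ x y, x ∈ A3 → Relation.ReflTransGen
      (fun a b => a ∈ A3 ∧ b ∈ A3 ∧ G.dist (z a) (z b) ≤ tc) x y → G.dist (z x) (z y) ≤ ρ := by
    intro x y hx hxy
    obtain ⟨k, p, h0, hk, hp⟩ := seq_of_rtg hxy
    by_contra hcon
    push Not at hcon
    have hpA : ∀ j ≤ k, p j ∈ A3 := by
      intro j hj
      rcases Nat.eq_or_lt_of_le hj with h | h
      · cases j with
        | zero => rw [h0]; exact hx
        | succ j => exact (hp j (by omega)).2.1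
      · exact (hp j h).1
    have hE : ∃ j, j ≤ k ∧ ρ < G.dist (z x) (z (p j)) := ⟨k, le_refl _, by rw [hk]; exact hcon⟩
    obtain ⟨hj1, hj2⟩ := Nat.find_spec hE
    set j0 := Nat.find hE with hj0
    have hmin : ∀ j < j0, G.dist (z x) (z (p j)) ≤ ρ := by
      intro j hj
      have := Nat.find_min hE hj
      push Not at this
      exact this (by omega)
    have hj0pos : 0 < j0 := by
      rcases Nat.eq_zero_or_pos j0 with h | h
      · exfalso
        rw [h, h0, SimpleGraph.dist_self] at hj2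
        omega
      · exact h
    have hup : G.dist (z x) (z (p j0)) ≤ ρ + tc := by
      have h1 := hmin (j0 - 1) (by omega)
      have h2 := (hp (j0 - 1) (by omega)).2.2
      have h3 : G.dist (z x) (z (p j0)) ≤ G.dist (z x) (z (p (j0 - 1))) +
          G.dist (z (p (j0 - 1))) (z (p j0)) := hG.dist_triangle
      have h4 : j0 - 1 + 1 = j0 := by omega
      rw [h4] at h2
      omega
    have hzW : ∀ y ∈ A3, z y ∈ W := by
      intro y hy
      exact mem_biUnion.2 ⟨y, hy, hzZ y (hc.sub hy)⟩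
    have hPP : (z x, z (p j0)) ∈ PPs := by
      rw [hPPs, mem_filter]
      exact ⟨mem_product.2 ⟨hzW x hx, hzW _ (hpA j0 hj1)⟩, hj2, hup⟩
    apply hfB _ hPP
    refine (mem_hit _ _ _ _).2 ⟨hf, ?_⟩
    intro a ha
    obtain ⟨-, h2⟩ := hw (z x) (z (p j0)) ⟨hzW x hx, hj2, hup⟩
    obtain ⟨j, hj, hd⟩ := h2 j0 (fun j => z (p j)) (by show z (p 0) = z x; rw [h0]) rfl
      (by
        intro j hj
        rcases Nat.eq_or_lt_of_le hj with h | h
        · rw [h]; exact hup
        · have := hmin j h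
          exact this.trans (by omega))
      (fun j hj => (hp j (by omega)).2.2) a ha
    refine ⟨⟨p j, hpA j (by omega)⟩, ?_⟩
    rw [← hz3 (p j) (hpA j (by omega))]
    exact hd
  obtain ⟨cl, hcl⟩ := clusters G hG r2 tc ρ Th A A3 z
    (fun x hx hx3 => hc.near x hx hx3 (z x) (hzZ x hx)) hch
  exact ⟨z, cl, hzZ, hcl⟩

end Pool.Agent.Lib.MP_fce888_co
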