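import Pool.Agent.Lib.MP_fce888_co.C45.Ifc

set_option autoImplicit false

/-!
# MP_fce888_co, 4.5: the occupancy lemma (helper12)
-/

namespace Pool.Agent.Lib.MP_fce888_co

open Finset
open scoped Classical

namespace Occ

variable {ι V : Type} [Fintype ι] (Z : ι → Finset V) (Nr : ℕ → V → Prop)

/-- choices which hit all positions in `S` by indices in `I` -/
private noncomputable def E (I : Finset ι) (S : Finset ℕ) : Finset (ι → V) :=
  (Fintype.piFinset Z).filter fun f => ∀ a ∈ S, ∃ i ∈ I, Nr a (f i)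

private lemma mem_E {I : Finset ι} {S : Finset ℕ} {f : ι → V} :
    f ∈ E Z Nr I S ↔ (∀ i, f i ∈ Z i) ∧ ∀ a ∈ S, ∃ i ∈ I, Nr a (f i) := by
  simp [E, Fintype.mem_piFinset]

private lemma upd_mem {I : Finset ι} {S : Finset ℕ} {f : ι → V} {i0 : ι} (hi : i0 ∉ I) {v : V}
    (hv : v ∈ Z i0) (hf : f ∈ E Z Nr I S) : Function.update f i0 v ∈ E Z Nr I S := by
  rw [mem_E] at hf ⊢
  refine ⟨fun i => ?_, fun a ha => ?_⟩
  · by_cases h : i = i0
    · subst h; simpa using hv
    · rw [Function.update_of_ne h]; exact hf.1 i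
  · obtain ⟨i, hiI, h⟩ := hf.2 a ha
    refine ⟨i, hiI, ?_⟩
    have : i ≠ i0 := fun h => hi (h ▸ hiI)
    rwa [Function.update_of_ne this]

private lemma fib_le {I : Finset ι} {S : Finset ℕ} {i0 : ι} (hi : i0 ∉ I) {v v' : V}
    (hv' : v' ∈ Z i0) :
    ((E Z Nr I S).filter fun f => f i0 = v).card ≤
      ((E Z Nr I S).filter fun f => f i0 = v').card := by
  refine Finset.card_le_card_of_injOn (fun f => Function.update f i0 v') ?_ ?_
  · intro f hf
    rw [Finset.mem_coe, Finset.mem_filter] at hf ⊢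
    exact ⟨upd_mem Z Nr hi hv' hf.1, by simp⟩
  · intro f hf g hg hfg
    rw [Finset.mem_coe, Finset.mem_filter] at hf hg
    funext i
    by_cases h : i = i0
    · subst h; rw [hf.2, hg.2]
    · have := congrFun hfg i
      simpa [Function.update_of_ne h] using this

private lemma fib_card {I : Finset ι} {S : Finset ℕ} {i0 : ι} (hi : i0 ∉ I) {v : V}
    (hv : v ∈ Z i0) :
    (Z i0).card * ((E Z Nr I S).filter fun f => f i0 = v).card = (E Z Nr I S).card := by
  have h1 : (E Z Nr I S).card = ∑ w ∈ Z i0, ((E Z Nr I S).filter fun f => f i0 = w).card := by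
    apply Finset.card_eq_sum_card_fiberwise
    intro f hf
    exact ((mem_E Z Nr).1 hf).1 i0
  rw [h1, Finset.sum_congr rfl (fun w hw =>
    le_antisymm (fib_le Z Nr hi hv) (fib_le Z Nr hi hw) :
      ∀ w ∈ Z i0, ((E Z Nr I S).filter fun f => f i0 = w).card =
        ((E Z Nr I S).filter fun f => f i0 = v).card)]
  simp

private lemma step {I : Finset ι} {S : Finset ℕ} {i0 : ι} (hi : i0 ∉ I) :
    (Z i0).card * (E Z Nr (insert i0 I) S).card =
      ∑ v ∈ Z i0, (E Z Nr I (S.filter fun a => ¬ Nr a v)).card := by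
  have h1 : (E Z Nr (insert i0 I) S).card =
      ∑ w ∈ Z i0, ((E Z Nr (insert i0 I) S).filter fun f => f i0 = w).card := by
    apply Finset.card_eq_sum_card_fiberwise
    intro f hf
    exact ((mem_E Z Nr).1 hf).1 i0
  rw [h1, Finset.mul_sum]
  refine Finset.sum_congr rfl fun v hv => ?_
  rw [← fib_card Z Nr (I := I) (S := S.filter fun a => ¬ Nr a v) hi hv]
  congr 2
  ext f
  simp only [Finset.mem_filter, mem_E]
  constructor
  · rintro ⟨⟨h1, h2⟩, h3⟩
    refine ⟨⟨h1, ?_⟩, h3⟩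
    rintro a ⟨ha, hn⟩
    obtain ⟨i, hiI, h⟩ := h2 a ha
    rcases Finset.mem_insert.1 hiI with h4 | h4
    · subst h4; rw [h3] at h; exact absurd h hn
    · exact ⟨i, h4, h⟩
  · rintro ⟨⟨h1, h2⟩, h3⟩
    refine ⟨⟨h1, ?_⟩, h3⟩
    intro a ha
    by_cases hn : Nr a v
    · exact ⟨i0, Finset.mem_insert_self _ _, by rw [h3]; exact hn⟩
    · obtain ⟨i, hiI, h⟩ := h2 a ⟨ha, hn⟩
      exact ⟨i, Finset.mem_insert_of_mem hiI, h⟩

private lemma prod_add_ge (S : Finset ℕ) (q d : ℕ → ℝ) (hq : ∀ a, 0 ≤ q a) (hd : ∀ a, 0 ≤ d a) :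
    ∏ a ∈ S, q a + ∑ a ∈ S, d a * ∏ b ∈ S.erase a, q b ≤ ∏ a ∈ S, (q a + d a) := by
  induction S using Finset.induction_on with
  | empty => simp
  | @insert x S hx ih =>
    rw [Finset.prod_insert hx, Finset.prod_insert hx, Finset.sum_insert hx,
      Finset.erase_insert hx]
    have h1 : ∑ a ∈ S, d a * ∏ b ∈ (insert x S).erase a, q b =
        q x * ∑ a ∈ S, d a * ∏ b ∈ S.erase a, q b := by
      rw [Finset.mul_sum]
      refine Finset.sum_congr rfl fun a ha => ?_
      have hne : a ≠ x := fun h => hx (h ▸ ha)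
      rw [Finset.erase_insert_of_ne hne.symm, Finset.prod_insert
        (fun h => hx (Finset.mem_of_mem_erase h))]
      ring
    rw [h1]
    have h2 : ∏ a ∈ S, q a ≤ ∏ a ∈ S, (q a + d a) :=
      Finset.prod_le_prod (fun a _ => hq a) (fun a _ => by linarith [hd a])
    nlinarith [hq x, hd x, mul_le_mul_of_nonneg_left ih (hq x),
      mul_le_mul_of_nonneg_left h2 (hd x)]

/-- the hitting probability of `a` by `i` -/
private noncomputable def p (i : ι) (a : ℕ) : ℝ :=
  (((Z i).filter fun v => Nr a v).card : ℝ) / ((Z i).card : ℝ)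

private lemma p_nonneg (i : ι) (a : ℕ) : 0 ≤ p Z Nr i a := by
  unfold p; positivity

private lemma p_le_one (i : ι) (a : ℕ) : p Z Nr i a ≤ 1 := by
  unfold p
  apply div_le_one_of_le₀
  · exact_mod_cast Finset.card_filter_le _ _
  · positivity

private lemma sum_filter_prod (S : Finset ℕ) (q : ℕ → ℝ) (v : V)
    (hdis : ∀ a ∈ S, ∀ b ∈ S, Nr a v → Nr b v → a = b) :
    ∏ b ∈ S.filter (fun a => ¬ Nr a v), q b =
      ∏ b ∈ S, q b + ∑ a ∈ S.filter (fun a => Nr a v), (1 - q a) * ∏ b ∈ S.erase a, q b := by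
  by_cases h : ∃ a ∈ S, Nr a v
  · obtain ⟨a, ha, hn⟩ := h
    have h1 : S.filter (fun a => Nr a v) = {a} := by
      ext b
      simp only [Finset.mem_filter, Finset.mem_singleton]
      constructor
      · rintro ⟨hb, hbn⟩; exact hdis b hb a ha hbn hn
      · rintro rfl; exact ⟨ha, hn⟩
    have h2 : S.filter (fun a => ¬ Nr a v) = S.erase a := by
      ext b
      simp only [Finset.mem_filter, Finset.mem_erase]
      constructor
      · rintro ⟨hb, hbn⟩; exact ⟨fun h => hbn (h ▸ hn), hb⟩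
      · rintro ⟨hba, hb⟩; exact ⟨hb, fun hbn => hba (hdis b hb a ha hbn hn)⟩
    rw [h1, h2, Finset.sum_singleton, ← Finset.mul_prod_erase S q ha]
    ring
  · push Not at h
    have h1 : S.filter (fun a => Nr a v) = ∅ := by
      ext b
      simp only [Finset.mem_filter, Finset.notMem_empty, iff_false, not_and]
      exact h b
    have h2 : S.filter (fun a => ¬ Nr a v) = S := by
      ext b
      simp only [Finset.mem_filter, and_iff_left_iff_imp]
      exact h b
    rw [h1, h2]; simp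

private lemma swap (S : Finset ℕ) (T : Finset V) (c : ℕ → ℝ) :
    ∑ v ∈ T, ∑ a ∈ S.filter (fun a => Nr a v), c a =
      ∑ a ∈ S, ((T.filter fun v => Nr a v).card : ℝ) * c a := by
  simp_rw [Finset.sum_filter]
  rw [Finset.sum_comm]
  refine Finset.sum_congr rfl fun a _ => ?_
  rw [← Finset.sum_filter, Finset.sum_const, nsmul_eq_mul]

private lemma main (hne : ∀ i, (Z i).Nonempty) (m : ℕ)
    (hdis : ∀ a < m, ∀ b < m, ∀ v, Nr a v → Nr b v → a = b) (I : Finset ι) :
    ∀ S ⊆ Finset.range m, ((E Z Nr I S).card : ℝ) ≤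
      (∏ a ∈ S, (1 - ∏ i ∈ I, (1 - p Z Nr i a))) * ((Fintype.piFinset Z).card : ℝ) := by
  induction I using Finset.induction_on with
  | empty =>
    intro S _
    rcases S.eq_empty_or_nonempty with h | h
    · subst h
      simp [E]
    · have h1 : E Z Nr ∅ S = ∅ := by
        ext f
        rw [mem_E]
        simp only [Finset.notMem_empty, false_and, exists_false, iff_false, not_and]
        intro _ h2
        obtain ⟨a, ha⟩ := h
        exact h2 a ha
      rw [h1]
      simp only [Finset.card_empty, Nat.cast_zero, Finset.prod_empty, sub_self]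
      apply mul_nonneg _ (Nat.cast_nonneg _)
      exact Finset.prod_nonneg fun _ _ => le_refl _
  | @insert i0 I hi ih =>
    intro S hS
    set q : ℕ → ℝ := fun a => 1 - ∏ i ∈ I, (1 - p Z Nr i a) with hq
    set N : ℝ := ((Fintype.piFinset Z).card : ℝ) with hN
    have hN0 : 0 ≤ N := Nat.cast_nonneg _
    have hPi0 : ∀ a, 0 ≤ ∏ i ∈ I, (1 - p Z Nr i a) := fun a =>
      Finset.prod_nonneg fun i _ => by linarith [p_le_one Z Nr i a]
    have hPi1 : ∀ a, ∏ i ∈ I, (1 - p Z Nr i a) ≤ 1 := fun a =>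
      Finset.prod_le_one (fun i _ => by linarith [p_le_one Z Nr i a])
        (fun i _ => by linarith [p_nonneg Z Nr i a])
    have hq0 : ∀ a, 0 ≤ q a := fun a => by simp only [hq]; linarith [hPi1 a]
    have hq1 : ∀ a, q a ≤ 1 := fun a => by simp only [hq]; linarith [hPi0 a]
    have hz : (0 : ℝ) < ((Z i0).card : ℝ) := by
      exact_mod_cast (Finset.card_pos.2 (hne i0))
    have hst := step Z Nr (S := S) hi
    have hst' : ((Z i0).card : ℝ) * ((E Z Nr (insert i0 I) S).card : ℝ) =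
        ∑ v ∈ Z i0, ((E Z Nr I (S.filter fun a => ¬ Nr a v)).card : ℝ) := by
      exact_mod_cast hst
    have h1 : ∑ v ∈ Z i0, ((E Z Nr I (S.filter fun a => ¬ Nr a v)).card : ℝ) ≤
        ∑ v ∈ Z i0, (∏ b ∈ S, q b +
          ∑ a ∈ S.filter (fun a => Nr a v), (1 - q a) * ∏ b ∈ S.erase a, q b) * N := by
      refine Finset.sum_le_sum fun v _ => ?_
      refine (ih _ ((Finset.filter_subset _ _).trans hS)).trans ?_
      rw [← sum_filter_prod Nr S q v (fun a ha b hb => hdis a (Finset.mem_range.1 (hS ha)) b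
        (Finset.mem_range.1 (hS hb)) v)]
    have h2 : ∑ v ∈ Z i0, (∏ b ∈ S, q b +
          ∑ a ∈ S.filter (fun a => Nr a v), (1 - q a) * ∏ b ∈ S.erase a, q b) * N =
        ((Z i0).card : ℝ) * ((∏ b ∈ S, q b +
          ∑ a ∈ S, (p Z Nr i0 a * (1 - q a)) * ∏ b ∈ S.erase a, q b) * N) := by
      rw [← Finset.sum_mul, Finset.sum_add_distrib, Finset.sum_const, nsmul_eq_mul,
        swap Nr S (Z i0) (fun a => (1 - q a) * ∏ b ∈ S.erase a, q b), ← mul_assoc, mul_add,
        Finset.mul_sum]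
      congr 2
      refine Finset.sum_congr rfl fun a _ => ?_
      unfold p
      field_simp
    have h3 := prod_add_ge S q (fun a => p Z Nr i0 a * (1 - q a)) hq0
      (fun a => mul_nonneg (p_nonneg Z Nr i0 a) (by linarith [hq1 a]))
    have h4 : ∏ a ∈ S, (q a + p Z Nr i0 a * (1 - q a)) =
        ∏ a ∈ S, (1 - ∏ i ∈ insert i0 I, (1 - p Z Nr i a)) := by
      refine Finset.prod_congr rfl fun a _ => ?_
      rw [Finset.prod_insert hi]
      simp only [hq]
      ring
    rw [← h4]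
    have h5 := mul_le_mul_of_nonneg_right h3 hN0
    have h6 : ((Z i0).card : ℝ) * ((E Z Nr (insert i0 I) S).card : ℝ) ≤
        ((Z i0).card : ℝ) * ((∏ a ∈ S, (q a + p Z Nr i0 a * (1 - q a))) * N) := by
      rw [hst']
      refine (h1.trans (le_of_eq h2)).trans ?_
      exact mul_le_mul_of_nonneg_left h5 hz.le
    exact le_of_mul_le_mul_left h6 hz

private lemma one_sub_ge {x : ℝ} (h0 : 0 ≤ x) (h1 : x ≤ 1 / 2) : (1 / 4 : ℝ) ^ x ≤ 1 - x := by
  have h2 : (1 / 4 : ℝ) ^ x = (1 / 2 : ℝ) ^ (2 * x) := by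
    rw [Real.rpow_mul (by norm_num)]
    norm_num
  have h3 := rpow_one_add_le_one_add_mul_self (s := (-1 / 2 : ℝ)) (by norm_num)
    (p := 2 * x) (by linarith) (by linarith)
  rw [h2]
  have h4 : (1 : ℝ) + -1 / 2 = 1 / 2 := by norm_num
  rw [h4] at h3
  linarith

end Occ

theorem occ : OccStatement := by
  intro ι V _ Z κ m Nr hcard hsum hone hdis
  have hne : ∀ i, (Z i).Nonempty := fun i => Finset.card_pos.1 (by have := hcard i; omega)
  have h := Occ.main Z Nr hne m hdis Finset.univ (Finset.range m) (le_refl _)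
  have hE : Occ.E Z Nr Finset.univ (Finset.range m) =
      (Fintype.piFinset Z).filter fun f => ∀ a < m, ∃ i, Nr a (f i) := by
    ext f
    simp [Occ.E]
  rw [hE] at h
  refine h.trans (mul_le_mul_of_nonneg_right ?_ (Nat.cast_nonneg _))
  have hp : ∀ a ∈ Finset.range m, ∀ i, Occ.p Z Nr i a ≤ 1 / ((Z i).card : ℝ) := by
    intro a ha i
    have hc : ((Z i).filter fun v => Nr a v).card ≤ 1 := by
      rw [Finset.card_le_one]
      intro v hv v' hv'
      rw [Finset.mem_filter] at hv hv'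
      exact hone i a (Finset.mem_range.1 ha) v hv.1 v' hv'.1 hv.2 hv'.2
    unfold Occ.p
    have hc' : (((Z i).filter fun v => Nr a v).card : ℝ) ≤ 1 := by exact_mod_cast hc
    gcongr
  have hp2 : ∀ a ∈ Finset.range m, ∀ i, Occ.p Z Nr i a ≤ 1 / 2 := by
    intro a ha i
    refine (hp a ha i).trans ?_
    have : (2 : ℝ) ≤ ((Z i).card : ℝ) := by exact_mod_cast hcard i
    exact one_div_le_one_div_of_le (by norm_num) this
  have hfac : ∀ a ∈ Finset.range m, 1 - ∏ i, (1 - Occ.p Z Nr i a) ≤ 1 - (1 / 4 : ℝ) ^ κ := by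
    intro a ha
    have h1 : ∏ i, (1 / 4 : ℝ) ^ (Occ.p Z Nr i a) ≤ ∏ i, (1 - Occ.p Z Nr i a) :=
      Finset.prod_le_prod (fun i _ => by positivity)
        (fun i _ => Occ.one_sub_ge (Occ.p_nonneg Z Nr i a) (hp2 a ha i))
    have h2 : ∏ i, (1 / 4 : ℝ) ^ (Occ.p Z Nr i a) = (1 / 4 : ℝ) ^ (∑ i, Occ.p Z Nr i a) :=
      (Real.rpow_sum_of_pos (by norm_num) _ _).symm
    have h3 : (1 / 4 : ℝ) ^ (κ : ℝ) ≤ (1 / 4 : ℝ) ^ (∑ i, Occ.p Z Nr i a) :=
      Real.rpow_le_rpow_of_exponent_ge (by norm_num) (by norm_num)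
        ((Finset.sum_le_sum fun i _ => hp a ha i).trans hsum)
    rw [Real.rpow_natCast] at h3
    linarith
  calc ∏ a ∈ Finset.range m, (1 - ∏ i, (1 - Occ.p Z Nr i a))
      ≤ ∏ _a ∈ Finset.range m, (1 - (1 / 4 : ℝ) ^ κ) := by
        refine Finset.prod_le_prod (fun a _ => ?_) hfac
        have : ∏ i, (1 - Occ.p Z Nr i a) ≤ 1 :=
          Finset.prod_le_one (fun i _ => by linarith [Occ.p_le_one Z Nr i a])
            (fun i _ => by linarith [Occ.p_nonneg Z Nr i a])
        linarith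
    _ = (1 - (1 / 4 : ℝ) ^ κ) ^ m := by simp

end Pool.Agent.Lib.MP_fce888_co
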