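import Pool.Agent.Lib.MP_fce888_co.C45.Main
import Pool.Agent.Lib.MP_fce888_co.C45.Occ
import Pool.Agent.Lib.MP_fce888_co.C45.Geo

set_option autoImplicit false

/-!
# MP_fce888_co, 4.5: `SelStatement`
-/

namespace Pool.Agent.Lib.MP_fce888_co

theorem sel : SelStatement := sel_of occ C45.geo

end Pool.Agent.Lib.MP_fce888_co
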