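import Pool.Agent.Lib.MP_fce888_co.C.Ifc

set_option autoImplicit false

/-!
# MP_fce888_co, 4.5: the two sub-statements (owner helper36)

`OccStatement` (owner helper12): the occupancy lemma, uniform choice from finsets.
`GeoStatement` (owner helper15): a chain of points from `z` to `z'` passes within `tc / 2` of every
vertex of the geodesic from `z` to `z'`.
-/

namespace Pool.Agent.Lib.MP_fce888_co

open Finset
open scoped Classical

/-- Occupancy lemma.  `f` is chosen uniformly from `∏ Z i`; `Nr a v`: the point `v` is near the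
position `a`.  The events for one `i` and different `a` are disjoint (`hdis`), for fixed `a` at most
one candidate of `i` is near `a` (`hone`).  Proof: let `p i a = 1/|Z i|` if some `v ∈ Z i` is near
`a`, else `0`.  For every set `S` of positions the probability that all `a ∈ S` are hit is at most
`∏ a ∈ S, (1 - ∏ i, (1 - p i a))` (induction over the set of the `i`, for all `S` at once); and
`1 - p ≥ 4 ^ (-p)` for `0 ≤ p ≤ 1/2`, so `∏ i, (1 - p i a) ≥ (1/4) ^ κ`. -/
def OccStatement : Prop :=
  ∀ (ι V : Type) [Fintype ι] (Z : ι → Finset V) (κ m : ℕ) (Nr : ℕ → V → Prop),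
    (∀ i, 2 ≤ (Z i).card) →
    (∑ i, (1 : ℝ) / ((Z i).card : ℝ) ≤ κ) →
    (∀ i, ∀ a < m, ∀ v ∈ Z i, ∀ v' ∈ Z i, Nr a v → Nr a v' → v = v') →
    (∀ a < m, ∀ b < m, ∀ v, Nr a v → Nr b v → a = b) →
    ((((Fintype.piFinset Z).filter fun f => ∀ a < m, ∃ i, Nr a (f i)).card : ℕ) : ℝ) ≤
      (1 - (1 / 4 : ℝ) ^ κ) ^ m * ((Fintype.piFinset Z).card : ℝ)

/-- Geometry of chains.  Proof: let `g` be a geodesic from `z` to `z'` and `w a` its vertex number
`a * (tc + 1)`.  The geodesics `[p j, p (j+1)]` stay in the ball of radius `ρ + tc + tc / 2 + 1 ≤ r`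
around `z`; their concatenation is a walk from `z` to `z'`; the path inside it (`bypass`) and `g` are
paths between the same vertices in a ball without circuits of `G`, so they are equal; so `w a` is on
some `[p j, p (j+1)]` and has distance at most `tc / 2` from `p j` or from `p (j+1)`. -/
def GeoStatement : Prop :=
  ∀ (V : Type) [Fintype V] (G : SimpleGraph V), G.Connected →
    ∀ (r tc ρ : ℕ) (z z' : V), ρ + 2 * tc + 5 ≤ r →
      (∀ Y, IsCirc G Y → ¬ ∀ u ∈ vs Y, G.dist z u ≤ r) →
      ρ < G.dist z z' → G.dist z z' ≤ ρ + tc →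
      ∃ w : ℕ → V,
        (∀ a < ρ / (tc + 1), ∀ b < ρ / (tc + 1), a ≠ b → tc < G.dist (w a) (w b)) ∧
        ∀ (k : ℕ) (p : ℕ → V), p 0 = z → p k = z' →
          (∀ j ≤ k, G.dist z (p j) ≤ ρ + tc) →
          (∀ j < k, G.dist (p j) (p (j + 1)) ≤ tc) →
          ∀ a < ρ / (tc + 1), ∃ j ≤ k, 2 * G.dist (p j) (w a) ≤ tc

end Pool.Agent.Lib.MP_fce888_co
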